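import Pool.Agent.helper12.TZ.SpecI

/-!
# Project TZ (MP_baa4d7_al): row IPG (fixed points modulo `p`)
-/

set_option autoImplicit false

namespace Pool.Agent.TZ

open Pool.Agent.helper58.DC Pool.Agent.DI Pool.Agent.GR Pool.Agent.OB

/-- the elements of length parity `e` fixed by `C` -/
abbrev IPG_T {A : Type} [Group A] (S : SSet A) (C : Subgroup A) (e : ℕ) : Type :=
  {z : S.Z // S.len z % 2 = e ∧ ∀ c ∈ C, S.act c z = z}

lemma IPG_fix {A : Type} [Group A] (S : SSet A) (C : Subgroup A) [C.Normal] (a : A) (z : S.Z)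
    (hz : ∀ c ∈ C, S.act c z = z) : ∀ c ∈ C, S.act c (S.act a z) = S.act a z := by
  intro c hc
  have h1 : a⁻¹ * c * a ∈ C := by
    have := Subgroup.Normal.conj_mem (inferInstance : C.Normal) c hc a⁻¹
    rwa [inv_inv] at this
  have h2 : S.act c (S.act a z) = S.act a (S.act (a⁻¹ * c * a) z) := by
    have h3 : c * a = a * (a⁻¹ * c * a) := by group
    calc S.act c (S.act a z) = S.act (c * a) z := by rw [map_mul]; rfl
      _ = S.act (a * (a⁻¹ * c * a)) z := by rw [← h3]
      _ = _ := by rw [map_mul]; rfl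
  rw [h2, hz _ h1]

/-- the permutation of `IPG_T` -/
def IPG_perm {A : Type} [Group A] (S : SSet A) (C : Subgroup A) [C.Normal] (e : ℕ) (a : A) :
    Equiv.Perm (IPG_T S C e) where
  toFun z := ⟨S.act a z.1, by rw [S.len_act]; exact z.2.1, IPG_fix S C a z.1 z.2.2⟩
  invFun z := ⟨S.act a⁻¹ z.1, by rw [S.len_act]; exact z.2.1, IPG_fix S C a⁻¹ z.1 z.2.2⟩
  left_inv z := Subtype.ext (by
    show S.act a⁻¹ (S.act a z.1) = z.1
    rw [map_inv]
    exact Equiv.symm_apply_apply (S.act a) z.1)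
  right_inv z := Subtype.ext (by
    show S.act a (S.act a⁻¹ z.1) = z.1
    rw [map_inv]
    exact Equiv.apply_symm_apply (S.act a) z.1)

/-- the homomorphism -/
def IPG_hom {A : Type} [Group A] (S : SSet A) (C : Subgroup A) [C.Normal] (e : ℕ) :
    A →* Equiv.Perm (IPG_T S C e) where
  toFun := IPG_perm S C e
  map_one' := Equiv.ext fun z => Subtype.ext (by
    show S.act 1 z.1 = z.1
    rw [map_one]
    rfl)
  map_mul' a b := Equiv.ext fun z => Subtype.ext (by
    show S.act (a * b) z.1 = S.act a (S.act b z.1)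
    rw [map_mul]
    rfl)

lemma IPG_ker {A : Type} [Group A] (S : SSet A) (C : Subgroup A) [C.Normal] (e : ℕ) :
    C ≤ (IPG_hom S C e).ker := by
  intro c hc
  rw [MonoidHom.mem_ker]
  refine Equiv.ext fun z => Subtype.ext ?_
  exact z.2.2 c hc

/-- the action of the quotient -/
def IPG_act {A : Type} [Group A] (S : SSet A) (C : Subgroup A) [C.Normal] (e : ℕ) :
    MulAction (A ⧸ C) (IPG_T S C e) :=
  MulAction.compHom (IPG_T S C e) (QuotientGroup.lift C (IPG_hom S C e) (IPG_ker S C e))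

open Classical in
theorem IPG_par (p : ℕ) [Fact p.Prime] (A : Type) [Group A] [Finite A] (C : Subgroup A) [C.Normal]
    (hC : ∃ k : ℕ, C.index = p ^ k) (S : SSet A) [Fintype S.Z] (e : ℕ) :
    (p : ℤ) ∣ (∑ z : S.Z, if S.len z % 2 = e ∧ (∀ a, S.act a z = z) then (1 : ℤ) else 0) -
      ∑ z : S.Z, if S.len z % 2 = e ∧ (∀ c ∈ C, S.act c z = z) then (1 : ℤ) else 0 := by
  letI := IPG_act S C e
  have hA : IsPGroup p (A ⧸ C) := by
    obtain ⟨k, hk⟩ := hC
    exact IsPGroup.of_card (n := k) (by rw [← hk]; exact (Subgroup.index_eq_card C).symm)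
  have h := hA.card_modEq_card_fixedPoints (IPG_T S C e)
  have h1 : (Nat.card (IPG_T S C e) : ℤ) =
      ∑ z : S.Z, if S.len z % 2 = e ∧ (∀ c ∈ C, S.act c z = z) then (1 : ℤ) else 0 := by
    rw [Finset.sum_boole, Nat.card_eq_fintype_card, Fintype.card_subtype]
  have h2 : (Nat.card (MulAction.fixedPoints (A ⧸ C) (IPG_T S C e)) : ℤ) =
      ∑ z : S.Z, if S.len z % 2 = e ∧ (∀ a, S.act a z = z) then (1 : ℤ) else 0 := by
    rw [Finset.sum_boole]
    have e1 : (MulAction.fixedPoints (A ⧸ C) (IPG_T S C e)) ≃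
        {z : S.Z // S.len z % 2 = e ∧ (∀ a, S.act a z = z)} :=
      { toFun := fun z => ⟨z.1.1, z.1.2.1, fun a =>
          congrArg Subtype.val (z.2 (QuotientGroup.mk a))⟩
        invFun := fun z => ⟨⟨z.1, z.2.1, fun c _ => z.2.2 c⟩, fun q => by
          induction q using QuotientGroup.induction_on with
          | H a => exact Subtype.ext (z.2.2 a)⟩
        left_inv := fun z => rfl
        right_inv := fun z => rfl }
    rw [Nat.card_congr e1, Nat.card_eq_fintype_card, Fintype.card_subtype]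
  rw [← h1, ← h2]
  exact (Int.natCast_modEq_iff.2 h).dvd

open Classical in
theorem IPG_sum {A : Type} [Group A] (S : SSet A) [Fintype S.Z] (U : Subgroup A) :
    ∑ᶠ d : ℤ, S.fix d U = ∑ z : S.Z, if (∀ a ∈ U, S.act a z = z) then (-1 : ℤ) ^ S.len z else 0 := by
  unfold SSet.fix
  simp only [finsum_eq_sum_of_fintype]
  rw [finsum_sum_comm]
  · refine Finset.sum_congr rfl fun z _ => ?_
    rw [finsum_eq_single _ (S.dfc z)]
    · simp
    · intro d hd
      rw [if_neg]
      rintro ⟨h, -⟩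
      exact hd h.symm
  · intro z _
    refine (Set.finite_singleton (S.dfc z)).subset fun d hd => ?_
    rw [Function.mem_support] at hd
    by_contra hne
    apply hd
    rw [if_neg]
    rintro ⟨h, -⟩
    exact hne h.symm

theorem IPG_fin (p : ℕ) [Fact p.Prime] (A : Type) [Group A] [Finite A] (C : Subgroup A) [C.Normal]
    (hC : ∃ k : ℕ, C.index = p ^ k) (S : SSet A) :
    (p : ℤ) ∣ (∑ᶠ d : ℤ, S.fix d ⊤) - ∑ᶠ d : ℤ, S.fix d C := by
  classical
  haveI := S.fin
  letI := Fintype.ofFinite S.Z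
  rw [IPG_sum, IPG_sum]
  have h0 := IPG_par p A C hC S 0
  have h1 := IPG_par p A C hC S 1
  have h := dvd_sub h0 h1
  have e : ∀ z : S.Z, (-1 : ℤ) ^ S.len z =
      (if S.len z % 2 = 0 then (1 : ℤ) else 0) - (if S.len z % 2 = 1 then (1 : ℤ) else 0) := by
    intro z
    rcases Nat.even_or_odd (S.len z) with h | h
    · rw [h.neg_one_pow, Nat.even_iff.1 h]
      simp
    · rw [h.neg_one_pow, Nat.odd_iff.1 h]
      simp
  have e1 : (∑ z : S.Z, if (∀ a ∈ (⊤ : Subgroup A), S.act a z = z) then (-1 : ℤ) ^ S.len z else 0) =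
      (∑ z : S.Z, if S.len z % 2 = 0 ∧ (∀ a, S.act a z = z) then (1 : ℤ) else 0) -
      ∑ z : S.Z, if S.len z % 2 = 1 ∧ (∀ a, S.act a z = z) then (1 : ℤ) else 0 := by
    rw [← Finset.sum_sub_distrib]
    refine Finset.sum_congr rfl fun z _ => ?_
    by_cases hz : ∀ a, S.act a z = z
    · rw [if_pos (fun a _ => hz a), e z]
      simp [hz]
    · rw [if_neg (fun h' => hz fun a => h' a (Subgroup.mem_top a)), if_neg (fun h' => hz h'.2),
        if_neg (fun h' => hz h'.2)]
      simp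
  have e2 : (∑ z : S.Z, if (∀ a ∈ C, S.act a z = z) then (-1 : ℤ) ^ S.len z else 0) =
      (∑ z : S.Z, if S.len z % 2 = 0 ∧ (∀ a ∈ C, S.act a z = z) then (1 : ℤ) else 0) -
      ∑ z : S.Z, if S.len z % 2 = 1 ∧ (∀ a ∈ C, S.act a z = z) then (1 : ℤ) else 0 := by
    rw [← Finset.sum_sub_distrib]
    refine Finset.sum_congr rfl fun z _ => ?_
    by_cases hz : ∀ a ∈ C, S.act a z = z
    · rw [if_pos hz, e z]
      by_cases h0 : S.len z % 2 = 0
      · have h1' : ¬ S.len z % 2 = 1 := by omega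
        rw [if_pos h0, if_neg h1', if_pos ⟨h0, hz⟩, if_neg (fun h' => h1' h'.1)]
      · have h1' : S.len z % 2 = 1 := by omega
        rw [if_neg h0, if_pos h1', if_neg (fun h' => h0 h'.1), if_pos ⟨h1', hz⟩]
    · rw [if_neg hz, if_neg (fun h' => hz h'.2), if_neg (fun h' => hz h'.2)]
      simp
  rw [e1, e2]
  have e3 : ∀ a b c d : ℤ, (a - b) - (c - d) = (a - c) - (b - d) := by intro a b c d; ring
  rw [e3]
  exact h

theorem IPG (hCL0 : CL0_stmt) (hCL1 : CL1_stmt) (hMB : MB_stmt) : IPG_stmt := by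
  classical
  intro p _ M G E A _ _ _ _ _ _ X C _ hC χ hχ hst
  obtain ⟨S, cls, hcls⟩ := hCL0 G E A X p M χ hχ hst
  have h1 : ∀ d U, altSum X p M χ d U = S.num d U := hCL1 G E A X p M χ hχ hst S cls hcls
  have h2 : ∀ d, S.fix d ⊤ = S.num d ⊤ := by
    intro d
    rw [hMB A S d ⊤]
    let u : {V : Subgroup A // ⊤ ≤ V} := ⟨⊤, le_rfl⟩
    have h3 : ∀ V : {V : Subgroup A // ⊤ ≤ V}, V ≠ u → S.num d V.1 = 0 := by
      intro V hV
      exact absurd (Subtype.ext (top_le_iff.1 V.2)) hV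
    exact finsum_eq_single (fun V : {V : Subgroup A // ⊤ ≤ V} => S.num d V.1) u h3
  have h3 : ∀ d, S.fix d C = ∑ᶠ V : {V : Subgroup A // C ≤ V}, S.num d V.1 := fun d => hMB A S d C
  have h4 := IPG_fin p A C hC S
  simp only [h1, ← h3, ← h2]
  exact h4

end Pool.Agent.TZ
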